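import Pool.Agent.DecompG.Defs
import Pool.Agent.DecompG.Reduction
import Pool.Agent.DecompG.FiniteIndex
import Pool.Agent.DecompG.Level
import Pool.Agent.DecompG.PieceInst

/-!
# Every language of `Pol(G)` is decomposable (`MP_0c20e5_lc`, Q1, positive answer)

Overview of the proof.

* `DecompG/Core.lean`: the insertion game on lists of prefix values over a finite group `G`
  and its largest simulation preorder `le`.
* `DecompG/Immortal.lean`, `PieceInst.lean`: immortal pieces (the three-copies lemma).
* `DecompG/Groupings.lean`: coarse-grainings of covers and the potential `∑ C ^ |F_i|`.
* `DecompG/Reduce.lean`, `Paths.lean`, `Level.lean`: content lemma, compression, budget lemma and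
  the downward induction on the size of the set of visited group elements.
* `DecompG/FiniteIndex.lean`: `le` has finite index.
* `DecompG/Closure.lean`, `Reduction.lean`: finite index gives decomposability of `Pol(G)`.
-/

namespace Pool.Agent.Results.MP_0c20e5_lc.PolGDecomposable

open DecompG

/-- For every finite alphabet `A`, every language of `Pol(G)` over `A` is decomposable. -/
theorem result (A : Type) [Finite A] (L : Set (List A)) (hL : PolG L) : Decomposable L := by
  refine polG_decomposable_of_finite_index ?_ L hL
  intro G _ _
  classical
  have := Fintype.ofFinite G
  obtain ⟨N, hN, hD⟩ := dom_all (G := G) (fun k F p => Im F k p) (fun k hk => isPiece_im hk)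
  exact finite_index hN (fun T hT s q hs hq => hD T (by omega) s q hs hq)

end Pool.Agent.Results.MP_0c20e5_lc.PolGDecomposable
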